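import Pool.Agent.WAP.StmtsM

/-! Row CKF of squad WAP (MP_ff4683_nt). -/

set_option autoImplicit false

namespace Pool.Agent.WAP.H62

open Classical

theorem sm_one' {F : Type} [Field F] [Algebra GaussianInt F] {d : F} (P : Pt d) :
    sm 1 P = P := by
  rw [sm_def]
  simp

theorem sm_zero' {F : Type} [Field F] [Algebra GaussianInt F] {d : F} (P : Pt d) :
    sm 0 P = 0 := by
  rw [sm_def]
  simp

theorem ckf (h1 : FraStmt) : CkfStmt := by
  intro F _ _ h2 d hd P hY k
  have hU : OnU (kum d P P) := by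
    rcases P with _ | ⟨X, Y, h⟩
    · exact absurd rfl hY
    have he : Y ^ 2 = X ^ 3 - d ^ 2 * X := (W_nonsingular d X Y h2 hd).1 h
    have hY' : Y ≠ 0 := hY
    show (Y * Y / d ^ 3) ^ 2 = cub (X / d) * cub (X / d) ∧ Y * Y / d ^ 3 ≠ 0
    have e : Y * Y / d ^ 3 = cub (X / d) := by
      unfold cub
      field_simp
      linear_combination he
    constructor
    · rw [e]; ring
    · exact div_ne_zero (mul_ne_zero hY' hY') (pow_ne_zero _ hd)
  have h3 := h1 F h2 d P P 1 0 k 0 hd hU
  rw [sm_one', sm_zero', add_zero, add_zero] at h3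
  rw [← h3]
  unfold actf
  rw [sm_one', sm_zero', add_zero, add_zero]
  rfl

end Pool.Agent.WAP.H62
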