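import Pool.Agent.WAP.StmtsL

/-! Row DEP of squad WAP (MP_ff4683_nt). -/

set_option autoImplicit false

namespace Pool.Agent.WAP.H62

theorem dep_rep (l : GaussianInt) (hl : l ≠ 0) (g k : ℕ) (hg : g = Int.gcd l.re l.im)
    (hk : ((k * g : ℕ) : ℤ) = l.re * l.re + l.im * l.im) (p q p' q' : ℕ)
    (hp : p < k) (hp' : p' < k) (hq : q < g) (hq' : q' < g)
    (hd : l ∣ (⟨p, q⟩ : GaussianInt) - ⟨p', q'⟩) : p = p' ∧ q = q' := by
  obtain ⟨w, hw⟩ := hd
  have hre : (p : ℤ) - p' = l.re * w.re - l.im * w.im := by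
    have := congrArg Zsqrtd.re hw
    simp only [Zsqrtd.re_sub, Zsqrtd.re_mul] at this
    linarith
  have him : (q : ℤ) - q' = l.re * w.im + l.im * w.re := by
    have := congrArg Zsqrtd.im hw
    simp only [Zsqrtd.im_sub, Zsqrtd.im_mul] at this
    linarith
  have g1 : (g : ℤ) ∣ l.re := by rw [hg]; exact Int.gcd_dvd_left _ _
  have g2 : (g : ℤ) ∣ l.im := by rw [hg]; exact Int.gcd_dvd_right _ _
  have hq0 : (q : ℤ) - q' = 0 := by
    apply Int.eq_zero_of_abs_lt_dvd (m := (g : ℤ))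
    · rw [him]
      exact dvd_add (g1.mul_right _) (g2.mul_right _)
    · rw [abs_lt]
      constructor <;> omega
  have g0 : 0 < g := by omega
  have hbez : (g : ℤ) = l.re * Int.gcdA l.re l.im + l.im * Int.gcdB l.re l.im := by
    rw [hg]
    exact Int.gcd_eq_gcd_ab _ _
  rw [hq0] at him
  have e1 : ((p : ℤ) - p') * l.re = ((k * g : ℕ) : ℤ) * w.re := by
    rw [hk, hre]
    linear_combination (l.im) * him
  have e2 : ((p : ℤ) - p') * l.im = ((k * g : ℕ) : ℤ) * (-w.im) := by
    rw [hk, hre]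
    linear_combination (-l.re) * him
  have e3 : ((p : ℤ) - p') * g = (k : ℤ) * g *
      (w.re * Int.gcdA l.re l.im - w.im * Int.gcdB l.re l.im) := by
    push_cast at e1 e2
    calc ((p : ℤ) - p') * g = ((p : ℤ) - p') * l.re * Int.gcdA l.re l.im +
          ((p : ℤ) - p') * l.im * Int.gcdB l.re l.im := by rw [hbez]; ring
      _ = _ := by rw [e1, e2]; ring
  have e4 : ((p : ℤ) - p') = (k : ℤ) *
      (w.re * Int.gcdA l.re l.im - w.im * Int.gcdB l.re l.im) := by
    have g0' : (g : ℤ) ≠ 0 := by exact_mod_cast g0.ne'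
    apply mul_right_cancel₀ g0'
    rw [e3]
    ring
  have hp0 : (p : ℤ) - p' = 0 := by
    apply Int.eq_zero_of_abs_lt_dvd (m := (k : ℤ))
    · rw [e4]
      exact dvd_mul_right _ _
    · rw [abs_lt]
      constructor <;> omega
  constructor <;> omega

theorem dep : DepStmt := by
  intro M _ _ l hl hA x y hx hy hx0
  classical
  by_contra hcon
  push Not at hcon
  have hl0 : l ≠ 0 := hl.ne_zero
  set g : ℕ := Int.gcd l.re l.im with hg
  have g1 : (g : ℤ) ∣ l.re := Int.gcd_dvd_left _ _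
  have g2 : (g : ℤ) ∣ l.im := Int.gcd_dvd_right _ _
  have hnorm : l.norm = l.re * l.re + l.im * l.im := by
    rw [Zsqrtd.norm_def]
    ring
  have hpos : 0 < l.norm := GaussianInt.norm_pos.2 hl0
  have hnm : ((nm l : ℕ) : ℤ) = l.re * l.re + l.im * l.im := by
    unfold nm
    rw [Int.natAbs_of_nonneg hpos.le, hnorm]
  have hgd : g ∣ nm l := by
    have : (g : ℤ) ∣ ((nm l : ℕ) : ℤ) := by
      rw [hnm]
      exact dvd_add (g1.mul_right _) (g2.mul_right _)
    exact_mod_cast this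
  obtain ⟨k, hk⟩ := hgd
  have hk' : ((k * g : ℕ) : ℤ) = l.re * l.re + l.im * l.im := by
    rw [← hnm, hk, mul_comm]
  have hnpos : 0 < nm l := by
    have : (0 : ℤ) < ((nm l : ℕ) : ℤ) := by rw [hnm, ← hnorm]; exact hpos
    exact_mod_cast this
  let f : (ℕ × ℕ) × Bool → M := fun t =>
    (⟨(t.1.1 : ℤ), (t.1.2 : ℤ)⟩ : GaussianInt) • x + (if t.2 then y else 0)
  set S : Finset ((ℕ × ℕ) × Bool) := ((Finset.range k) ×ˢ (Finset.range g)) ×ˢ Finset.univ with hS
  have hcard : S.card = 2 * nm l := by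
    rw [hS, Finset.card_product, Finset.card_product, Finset.card_range, Finset.card_range, hk]
    simp only [Finset.card_univ, Fintype.card_bool]
    ring
  -- a relation `c x = 0` or `c x = y` is impossible
  have hkill : ∀ c : GaussianInt, c • x = 0 → l ∣ c := by
    intro c hc
    by_contra hn
    obtain ⟨s, t, hst⟩ := (hl.irreducible.coprime_iff_not_dvd).2 hn
    apply hx0
    calc x = (1 : GaussianInt) • x := (one_smul _ _).symm
      _ = (s * l + t * c) • x := by rw [hst]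
      _ = s • (l • x) + t • (c • x) := by rw [add_smul, mul_smul, mul_smul]
      _ = 0 := by rw [hx, hc, smul_zero, smul_zero, add_zero]
  have hinj : Set.InjOn f S := by
    rintro ⟨⟨p, q⟩, e⟩ h1 ⟨⟨p', q'⟩, e'⟩ h2 he
    rw [hS, Finset.mem_coe, Finset.mem_product, Finset.mem_product, Finset.mem_range,
      Finset.mem_range] at h1 h2
    have he' : (⟨(p : ℤ), (q : ℤ)⟩ : GaussianInt) • x + (if e then y else 0) =
      (⟨(p' : ℤ), (q' : ℤ)⟩ : GaussianInt) • x + (if e' then y else 0) := he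
    have hee : e = e' := by
      cases e <;> cases e'
      · rfl
      · exfalso
        simp only [Bool.false_eq_true, if_false, if_true, add_zero] at he'
        apply hcon ((⟨(p : ℤ), (q : ℤ)⟩ : GaussianInt) - ⟨(p' : ℤ), (q' : ℤ)⟩)
        rw [sub_smul, he']
        abel
      · exfalso
        simp only [Bool.false_eq_true, if_false, if_true, add_zero] at he'
        apply hcon ((⟨(p' : ℤ), (q' : ℤ)⟩ : GaussianInt) - ⟨(p : ℤ), (q : ℤ)⟩)
        rw [sub_smul, ← he']
        abel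
      · rfl
    subst hee
    have h3 := add_right_cancel he'
    have h4 : ((⟨(p : ℤ), (q : ℤ)⟩ : GaussianInt) - ⟨(p' : ℤ), (q' : ℤ)⟩) • x = 0 := by
      rw [sub_smul, h3, sub_self]
    obtain ⟨h5, h6⟩ := dep_rep l hl0 g k hg hk' p q p' q' h1.1.1 h2.1.1 h1.1.2 h2.1.2 (hkill _ h4)
    rw [h5, h6]
  have hlt := hA (S.image f) ?_
  · rw [Finset.card_image_of_injOn hinj, hcard] at hlt
    omega
  · intro m hm
    rw [Finset.mem_image] at hm
    obtain ⟨⟨⟨p, q⟩, e⟩, -, rfl⟩ := hm
    show l • ((⟨(p : ℤ), (q : ℤ)⟩ : GaussianInt) • x + (if e then y else 0)) = 0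
    rw [smul_add, smul_smul, mul_comm, mul_smul, hx, smul_zero, zero_add]
    cases e
    · simp
    · simpa using hy

end Pool.Agent.WAP.H62
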