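import Pool.Agent.WAP.StmtsT

/-! Row RGO of squad WAP (MP_ff4683_nt). -/

set_option autoImplicit false

namespace Pool.Agent.WAP.H62

theorem rgo (h1 : Rg1Stmt) (h2 : Rg2Stmt) : RgoStmt :=
  fun F _ _ ϖ h => ⟨h1 F ϖ h, h2 F ϖ h⟩

end Pool.Agent.WAP.H62
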